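import Pool.Agent.Helper81K9.WallP

/-!
Zero in the spectrum from amenable subcomplexes in which walls intersect.

`X : FinRes G` is the cellular chain complex of the universal cover of a finite aspherical complex
`M` with fundamental group `G` (`Pool.Agent.H919R4.ZS.Defs`) and `X.homology (toRed G) i` is
`H_i(M; C*_r(G))`. The cells of the universal cover (`Cell X`) and their incidence numbers are
defined in `Pool.Agent.R778.ZSDefs`; `cellBC X` is the complex of these cells.

`BC.Retr`: a bounded retraction of a subcomplex `V` onto a subcomplex `A`, on the level of integral
chains. `BC.Iter k V`: the subcomplex `V` of the universal cover arises from the universal cover by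
finitely many steps, each of which passes to a subcomplex onto which there is a bounded retraction,
or from a union `A ∪ B` of two subcomplexes, onto both of which it has bounded retractions, to their
intersection `A ∩ B`; the number of the steps of the second kind is `k`. `Foelner (cellBC X) V`: the
graph of the cells of `V` of dimensions `0` and `1` satisfies the Foelner condition.

Examples: every reflection of `V` which is the identity on its wall (`Pool.Agent.Helper81K9.W.Refl`)
leads from `V` to its wall by a step of the second kind (`Refl.iter`), so that `V` can be the
intersection of the walls of `k` commuting reflections of the universal cover. It satisfies the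
Foelner condition for instance if it is finite or of subexponential growth. No group needs to act on
`V`.
-/

set_option autoImplicit false

namespace Pool.Agent.Results.MP_9f173d_gt.AmenableWalls

open Pool.Agent.H919R4.ZS (FinRes toRed)
open Pool.Agent.R778.ZS (Cell)
open Pool.Agent.Helper81K9.W (cellBC Foelner)

/-- Let the subcomplex `V` of the universal cover of `M` arise from the universal cover by bounded
retractions and by `k` steps from a union of two bounded retracts to their intersection. If `V`
satisfies the Foelner condition, then `H_j(M; C*_r(G)) ≠ 0` for some `j ≤ k`. -/
theorem result (G : Type) [Group G] (X : FinRes G) (k : ℕ) (V : Set (Cell X))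
    (hV : (cellBC X).Iter k V) (hF : Foelner (cellBC X) V) :
    ∃ j ≤ k, Nontrivial (X.homology (toRed G) j) :=
  Pool.Agent.Helper81K9.W.amenable_walls X hV hF

end Pool.Agent.Results.MP_9f173d_gt.AmenableWalls
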