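import Pool.Agent.Helper81K9.PdF

/-!
The zero-in-the-spectrum conjecture for Poincaré duality groups of dimension at most three, and for
those of dimension `n` which contain a poly-(infinite cyclic) subgroup of length `n - 2`.
-/

set_option autoImplicit false

namespace Pool.Agent.Results.MP_9f173d_gt.PoincareDuality

open Pool.Agent.H919R4.ZS (FinRes toRed)
open Pool.Agent.Helper81K9.PD (PolyZ)

/-- Let `X` be a finite free resolution of `ℤ` over `ℤ[G]` (the cellular chain complex of the
universal cover of a finite aspherical complex with fundamental group `G`). Let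
`H^i(G; ℤ[G]) = 0` for `i < n` and `H^n(G; ℤ[G]) ≅ ℤ` (as for the fundamental group of a closed
aspherical `n`-manifold, or of a finite aspherical `n`-dimensional Poincaré complex). If `n ≤ 3`, or
if `G` contains a poly-(infinite cyclic) subgroup of length `n - 2` (for instance `ℤ^(n-2)`), then
`H_i(G; C*_r(G)) ≠ 0` for some `i ≤ 2`. -/
theorem result {G : Type} [Group G] (X : FinRes G) (n : ℕ)
    (h0 : ∀ i < n, Subsingleton (X.cohomology i)) (hn : Nonempty (X.cohomology n ≃+ ℤ))
    (h : n ≤ 3 ∨ ∃ C : Subgroup G, PolyZ (n - 2) C) :
    ∃ i ≤ 2, Nontrivial (X.homology (toRed G) i) :=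
  Pool.Agent.Helper81K9.PD.main X n h0 hn h

end Pool.Agent.Results.MP_9f173d_gt.PoincareDuality
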