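import Pool.Agent.Helper81K9.WallM

/-!
Zero in the spectrum is inherited from walls.

`X : FinRes G` is the cellular chain complex of the universal cover of a finite aspherical complex
`M` with fundamental group `G` (`Pool.Agent.H919R4.ZS.Defs`) and `X.homology (toRed G) i` is
`H_i(M; C*_r(G))`. The cells of the universal cover (`Cell X`) and their incidence numbers are
defined in `Pool.Agent.R778.ZSDefs`; `cellBC X` is the complex of these cells.

`BC.Retr`: a bounded retraction of a subcomplex `V` onto a subcomplex `A`, on the level of integral
chains (for example given by a cellular retraction which maps at most `b` cells to a cell of `A` and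
every cell to a chain with at most `b` terms). `BC.Iter k V`: the subcomplex `V` of the universal
cover arises from the universal cover by finitely many steps, each of which passes to a subcomplex
onto which there is a bounded retraction, or from a union `A ∪ B` of two subcomplexes, onto both of
which it has bounded retractions, to their intersection `A ∩ B`; the number of the steps of the
second kind is `k`. `FAct`: a free cellular action with finitely many orbits of cells on `V`.

Examples: every reflection of `V` which is the identity on its wall (`Pool.Agent.Helper81K9.W.Refl`)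
leads from `V` to its wall by a step of the second kind (`Refl.iter`), so that `V` can be the
intersection of the walls of `k` commuting reflections of the universal cover. The double of an
aspherical complex along a `π₁`-injective aspherical subcomplex `N` has such a reflection, whose wall
is a copy of the universal cover of `N`. If `V` is invariant under a subgroup `C` of `G` with finitely
many orbits of cells then the deck transformations give an action as required (`deckAct`), but the
group `C` need not be related to `G`.
-/

set_option autoImplicit false

namespace Pool.Agent.Results.MP_9f173d_gt.Walls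

open Pool.Agent.H919R4.ZS (FinRes toRed)
open Pool.Agent.R778.ZS (Cell)
open Pool.Agent.TH38.ZT (euler)
open Pool.Agent.Helper81K9.W (cellBC FAct)

/-- Let the subcomplex `V` of the universal cover of `M` arise from the universal cover by bounded
retractions and by `k` steps from a union of two bounded retracts to their intersection, and let `C`
be a group which acts freely, cellularly and with finitely many orbits of cells on `V`. Then `C` has
a finite free resolution, and

(1) if `H_i(C; C*_r(C)) ≠ 0`, then `H_j(M; C*_r(G)) ≠ 0` for some `j ≤ i + k`;

(2) if `C` has a finite free resolution of length at most two, or `H^m(C; ℤ[C]) ≠ 0` for some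
`m ≤ 2`, then `H_j(M; C*_r(G)) ≠ 0` for some `j ≤ 2 + k`;

(3) if the Euler characteristic of `C` is not zero and `C` has a finite free resolution of length
`n`, then `H_j(M; C*_r(G)) ≠ 0` for some `j ≤ n + k`. -/
theorem result (G : Type) [Group G] (X : FinRes G) (k : ℕ) (V : Set (Cell X))
    (hV : (cellBC X).Iter k V) (C : Type) [Group C] (T : FAct (cellBC X) V C) :
    Nonempty (FinRes C) ∧
    (∀ (Z : FinRes C) (i : ℕ), Nontrivial (Z.homology (toRed C) i) →
      ∃ j ≤ i + k, Nontrivial (X.homology (toRed G) j)) ∧
    (∀ Z : FinRes C, (Z.len ≤ 2 ∨ ∃ m ≤ 2, Nontrivial (Z.cohomology m)) →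
      ∃ j ≤ 2 + k, Nontrivial (X.homology (toRed G) j)) ∧
    (∀ Z : FinRes C, euler Z ≠ 0 →
      ∃ j ≤ Z.len + k, Nontrivial (X.homology (toRed G) j)) := by
  have h1 : ∀ (Z : FinRes C) (i : ℕ), Nontrivial (Z.homology (toRed C) i) →
      ∃ j ≤ i + k, Nontrivial (X.homology (toRed G) j) := fun Z i h =>
    Pool.Agent.Helper81K9.W.inherit X hV T Z i h
  refine ⟨?_, h1, ?_, ?_⟩
  · obtain ⟨Z, -, -⟩ := Pool.Agent.Helper81K9.W.exists_res X hV T
    exact ⟨Z⟩
  · intro Z hZ
    obtain ⟨i, hi, h⟩ := Pool.Agent.H919R4.ZS.main Z hZ
    obtain ⟨j, hj, h2⟩ := h1 Z i h
    exact ⟨j, by omega, h2⟩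
  · intro Z hZ
    obtain ⟨i, hi, h⟩ := Pool.Agent.TH38.ZT.exists_of_euler Z hZ
    obtain ⟨j, hj, h2⟩ := h1 Z i h
    exact ⟨j, by omega, h2⟩

end Pool.Agent.Results.MP_9f173d_gt.Walls
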